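import Pool.Agent.Helper740.FinQ

set_option autoImplicit false

/-!
One algorithm recognises metabelian groups among all finite presentations of residually finite
groups, never answers wrongly on any finite presentation, and halts on every presentation of a
metabelian group.  The yes-part searches for a certificate (effective Bieri-Strebel theorem), the
no-part searches for a finite quotient that is not metabelian.
-/

namespace Pool.Agent.Results.MP_faf39d_al.ResiduallyFinite

/-- The relators in the free group on `p.1` generators given by the list `p.2` of words; the letter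
`(i, true)` is the generator `i`, the letter `(i, false)` is its inverse, and letters with
`i` not less than `p.1` are read as `1`. -/
def relators (p : ℕ × List (List (ℕ × Bool))) : Set (FreeGroup (Fin p.1)) :=
  {r | ∃ w ∈ p.2, r = (w.map (fun x : ℕ × Bool =>
    if h : x.1 < p.1 then
      (if x.2 then FreeGroup.of (⟨x.1, h⟩ : Fin p.1) else (FreeGroup.of (⟨x.1, h⟩ : Fin p.1))⁻¹)
    else 1)).prod}

/-- The group given by the finite presentation `p`. -/
abbrev Grp (p : ℕ × List (List (ℕ × Bool))) : Type := PresentedGroup (relators p)

lemma relators_eq (p : ℕ × List (List (ℕ × Bool))) :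
    Pool.Agent.Helper740.RS p.1 p.2 = relators p := by
  unfold Pool.Agent.Helper740.RS relators
  have h2 : ∀ w : List (ℕ × Bool),
      Pool.Agent.Helper740.ev (Pool.Agent.Helper740.XF p.1) w =
        (w.map (fun x : ℕ × Bool =>
            if h : x.1 < p.1 then
              (if x.2 then FreeGroup.of (⟨x.1, h⟩ : Fin p.1)
               else (FreeGroup.of (⟨x.1, h⟩ : Fin p.1))⁻¹)
            else 1)).prod := by
    intro w
    unfold Pool.Agent.Helper740.ev
    congr 1
    apply List.map_congr_left
    intro l _
    obtain ⟨i, b⟩ := l
    by_cases h : i < p.1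
    · cases b <;> simp [Pool.Agent.Helper740.lt, Pool.Agent.Helper740.XF, h]
    · cases b <;> simp [Pool.Agent.Helper740.lt, Pool.Agent.Helper740.XF, h]
  simp only [h2]

/-- There is a partial recursive procedure `f` on finite presentations such that every answer it
gives to the question whether the group is metabelian is correct, it gives an answer on every
presentation of a metabelian group, on every presentation of a residually finite group, and more
generally on every presentation of a group with a normal subgroup `N` of finite index that does
not contain the second derived subgroup. -/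
theorem result : ∃ f : ℕ × List (List (ℕ × Bool)) →. Bool, Partrec f ∧
    (∀ p, ∀ b ∈ f p, b = true ↔ derivedSeries (Grp p) 2 = ⊥) ∧
    (∀ p, derivedSeries (Grp p) 2 = ⊥ → (f p).Dom) ∧
    (∀ p, Group.ResiduallyFinite (Grp p) → (f p).Dom) ∧
    (∀ p, (∃ N : Subgroup (Grp p), N.Normal ∧ N.FiniteIndex ∧ ¬ derivedSeries (Grp p) 2 ≤ N) →
      (f p).Dom) := by
  obtain ⟨f, hf, h1, h2, h3⟩ := Pool.Agent.Helper740.exists_procedure
  have h1' : ∀ p, ∀ b ∈ f p, b = true ↔ derivedSeries (Grp p) 2 = ⊥ := by
    intro p b hb
    have := h1 p b hb
    rw [relators_eq] at this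
    exact this
  have h2' : ∀ p, derivedSeries (Grp p) 2 = ⊥ → (f p).Dom := by
    intro p hp
    have := h2 p
    rw [relators_eq] at this
    exact this hp
  have h3' : ∀ p, (∃ N : Subgroup (Grp p), N.Normal ∧ N.FiniteIndex ∧
      ¬ derivedSeries (Grp p) 2 ≤ N) → (f p).Dom := by
    intro p hp
    have := h3 p
    rw [relators_eq] at this
    exact this hp
  refine ⟨f, hf, h1', h2', ?_, h3'⟩
  intro p hp
  by_cases h : derivedSeries (Grp p) 2 = ⊥
  · exact h2' p h
  · apply h3' p
    rw [Subgroup.eq_bot_iff_forall] at h
    push Not at h
    obtain ⟨g, hg, hg1⟩ := h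
    obtain ⟨N, hN⟩ := Group.exists_finiteIndexNormalSubgroup_notMem g hg1
    exact ⟨N.toSubgroup, N.isNormal', N.isFiniteIndex', fun hle => hN (hle hg)⟩

end Pool.Agent.Results.MP_faf39d_al.ResiduallyFinite
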